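import Pool.Agent.Y840.CT.GenF
import Pool.Agent.Q253.Thin.Int

/-!
# Chen's theorem with prescribed residues modulo the small primes and forbidden classes modulo the others

`chenM`: for every `κ` and `M ≥ κ`: the `x` with `x ≡ m` modulo all primes `≤ M`, `x + a` prime, `x + b` with at most two prime factors,
and `x mod q ∉ Z q` for all primes `M < q ≤ X ^ (1/t)` (`Z q` is a set of at most `κ` classes modulo `q`, among them those of `-a`, `-b`);
lower bound of the expected order in all intervals of length `≥ θ X`, and narrow progressions in the dense subsets; uniform in all data.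
-/

set_option autoImplicit false

namespace Pool.Agent.Q117.CW

open Finset Filter
open Pool.Agent.Y840.CT (SysF GoodF VF genF rho Rough)
open Pool.Agent.Q253.Thin (SysZ VZ_low)
open Pool.Agent.Y843.HS (Pr VV Pr_mem Pr_prime)

/-- the data -/
structure Dat (κ M m a b : ℕ) (Z : ℕ → Finset ℕ) : Prop where
  le : κ ≤ M
  card : ∀ q : ℕ, q.Prime → M < q → (Z q).card ≤ κ
  lt : ∀ q : ℕ, q.Prime → M < q → ∀ c ∈ Z q, c < q
  ne : a ≠ b
  aM : a ≤ M
  bM : b ≤ M
  copa : ∀ p : ℕ, p.Prime → p ≤ M → ¬ p ∣ m + a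
  copb : ∀ p : ℕ, p.Prime → p ≤ M → ¬ p ∣ m + b
  ma : ∀ q : ℕ, q.Prime → M < q → ∃ c ∈ Z q, q ∣ c + a
  mb : ∀ q : ℕ, q.Prime → M < q → ∃ c ∈ Z q, q ∣ c + b

open Classical in
/-- the `x` -/
noncomputable def places (M m a b : ℕ) (Z : ℕ → Finset ℕ) (t X A B : ℕ) : Finset ℕ :=
  (Ioc A B).filter (fun x => (∀ p : ℕ, p.Prime → p ≤ M → x ≡ m [MOD p]) ∧ (x + a).Prime ∧
    ((x + b).primeFactorsList.length ≤ 2 ∧ ∀ q : ℕ, q.Prime → q ∣ x + b → (X : ℝ) ^ (1 / 9 : ℝ) < q) ∧
    ∀ q : ℕ, q.Prime → M < q → (q : ℝ) ≤ (X : ℝ) ^ (1 / (t : ℝ)) → x % q ∉ Z q)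

/-- the sieve product over the primes of `(M, X]` -/
noncomputable def WW (M X : ℕ) (Z : ℕ → Finset ℕ) : ℝ :=
  ∏ q ∈ (Ioc M X).filter Nat.Prime, (1 - ((Z q).card : ℝ) / q)

/-- the forbidden classes for `p = x + a` -/
def FF (M m a b : ℕ) (Z : ℕ → Finset ℕ) (q : ℕ) : Finset ℤ :=
  if q ≤ M then insert ((a : ℤ) - b) (((range q).erase ((m + a) % q)).image (fun c : ℕ => (c : ℤ)))
  else insert ((a : ℤ) - b) ((Z q).image (fun c : ℕ => (c : ℤ) + a))

variable {κ M m a b : ℕ} {Z : ℕ → Finset ℕ}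

lemma FF_card (D : Dat κ M m a b Z) (q : ℕ) (hq : q.Prime) : (FF M m a b Z q).card ≤ M + 1 := by
  unfold FF
  split_ifs with h
  · refine (card_insert_le _ _).trans ?_
    have h1 : (((range q).erase ((m + a) % q)).image (fun c : ℕ => (c : ℤ))).card ≤ q - 1 := by
      refine card_image_le.trans ?_
      rw [card_erase_of_mem (mem_range.2 (Nat.mod_lt _ hq.pos)), card_range]
    have := hq.one_le
    omega
  · refine (card_insert_le _ _).trans ?_
    have h1 : ((Z q).image (fun c : ℕ => (c : ℤ) + a)).card ≤ (Z q).card := card_image_le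
    have := D.card q hq (by omega)
    have := D.le
    omega

lemma FF_mem (q : ℕ) : ((a : ℤ) - b) ∈ FF M m a b Z q := by
  unfold FF
  split_ifs with h
  · exact mem_insert_self _ _
  · exact mem_insert_self _ _

lemma rho_small (D : Dat κ M m a b Z) (q : ℕ) (hq : q.Prime) (hqk : q ≤ M) :
    rho (FF M m a b Z q) q ≤ q - 1 := by
  have hq0 : (0 : ℤ) < q := by exact_mod_cast hq.pos
  unfold rho
  have h1 : (insert 0 (FF M m a b Z q)).image (fun h : ℤ => h % q) ⊆
      ((range q).erase ((m + a) % q)).image (fun c : ℕ => (c : ℤ)) := by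
    intro z hz
    rw [mem_image] at hz
    obtain ⟨h, hh, rfl⟩ := hz
    rw [mem_image]
    have h2 := Int.emod_nonneg h hq0.ne'
    have h3 := Int.emod_lt_of_pos h hq0
    refine ⟨(h % q).toNat, ?_, Int.toNat_of_nonneg h2⟩
    rw [mem_erase, mem_range]
    refine ⟨?_, by omega⟩
    intro hcon
    have h4 : h % q = (((m + a) % q : ℕ) : ℤ) := by
      rw [← hcon, Int.toNat_of_nonneg h2]
    push_cast at h4
    have h5 : h ≡ (m : ℤ) + a [ZMOD q] := h4
    rw [mem_insert] at hh
    rcases hh with hh | hh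
    · rw [hh] at h5
      have h6 : (q : ℤ) ∣ (m : ℤ) + a := by
        have := Int.modEq_iff_dvd.1 h5
        simpa using this
      exact D.copa q hq hqk (by exact_mod_cast h6)
    · unfold FF at hh
      rw [if_pos hqk, mem_insert, mem_image] at hh
      rcases hh with hh | ⟨c, hc, hh⟩
      · rw [hh] at h5
        have h6 : (q : ℤ) ∣ (m : ℤ) + b := by
          have := Int.modEq_iff_dvd.1 h5
          have e : (m : ℤ) + a - (a - b) = m + b := by ring
          rwa [e] at this
        exact D.copb q hq hqk (by exact_mod_cast h6)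
      · rw [mem_erase, mem_range] at hc
        apply hc.1
        rw [← hh] at h5
        have h6 : (c : ℕ) ≡ m + a [MOD q] := by
          have : ((c : ℕ) : ℤ) ≡ ((m + a : ℕ) : ℤ) [ZMOD q] := by
            push_cast
            exact h5
          exact (Int.natCast_modEq_iff).1 this
        unfold Nat.ModEq at h6
        rwa [Nat.mod_eq_of_lt hc.2] at h6
  refine (card_le_card h1).trans (card_image_le.trans ?_)
  rw [card_erase_of_mem (mem_range.2 (Nat.mod_lt _ hq.pos)), card_range]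

lemma rho_large (D : Dat κ M m a b Z) (q : ℕ) (hq : q.Prime) (hqk : ¬ q ≤ M) :
    rho (FF M m a b Z q) q ≤ (Z q).card := by
  have hq0 : (0 : ℤ) < q := by exact_mod_cast hq.pos
  unfold rho
  have h1 : (insert 0 (FF M m a b Z q)).image (fun h : ℤ => h % q) ⊆
      (Z q).image (fun c : ℕ => ((c : ℤ) + a) % q) := by
    intro z hz
    rw [mem_image] at hz
    obtain ⟨h, hh, rfl⟩ := hz
    rw [mem_image]
    rw [mem_insert] at hh
    rcases hh with hh | hh
    · obtain ⟨c, hc, hca⟩ := D.ma q hq (by omega)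
      refine ⟨c, hc, ?_⟩
      rw [hh]
      have : (q : ℤ) ∣ (c : ℤ) + a := by exact_mod_cast hca
      rw [Int.emod_eq_zero_of_dvd this, Int.zero_emod]
    · unfold FF at hh
      rw [if_neg hqk, mem_insert, mem_image] at hh
      rcases hh with hh | ⟨c, hc, hh⟩
      · obtain ⟨c, hc, hcb⟩ := D.mb q hq (by omega)
        refine ⟨c, hc, ?_⟩
        rw [hh]
        have h2 : (q : ℤ) ∣ (c : ℤ) + b := by exact_mod_cast hcb
        apply Int.emod_emod_of_dvd _ dvd_rfl |>.symm.trans _
        have h3 : (c : ℤ) + a ≡ a - b [ZMOD q] := by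
          apply Int.ModEq.symm
          rw [Int.modEq_iff_dvd]
          have e : (c : ℤ) + a - (a - b) = c + b := by ring
          rwa [e]
        rw [Int.emod_emod_of_dvd _ dvd_rfl]
        exact h3
      · exact ⟨c, hc, by rw [hh]⟩
  exact (card_le_card h1).trans card_image_le

lemma FF_sys {X : ℕ} (D : Dat κ M m a b Z) (hX : M ≤ X) : SysF (M + 1) X (FF M m a b Z) ((a : ℤ) - b) where
  card := fun q hq => FF_card D q hq
  ne := by
    intro h
    apply D.ne
    omega
  size := by
    have h1 := D.aM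
    have h2 := D.bM
    rw [abs_le]
    omega
  mem := fun q _ => FF_mem q
  loc := by
    intro q hq
    by_cases hqk : q ≤ M
    · have := rho_small D q hq hqk
      have := hq.pos
      omega
    · have := rho_large D q hq hqk
      have := D.card q hq (by omega)
      have := D.le
      omega

/-- the correspondence -/
lemma places_iff {t X A B : ℕ} (D : Dat κ M m a b Z)
    (hX : (M : ℝ) ≤ (X : ℝ) ^ (1 / (t : ℝ))) (x : ℕ) :
    x ∈ places M m a b Z t X A B ↔ x + a ∈ GoodF t X (A + a) (B + a) (FF M m a b Z) ((a : ℤ) - b) := by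
  classical
  have hxb : ((a : ℤ) - b) - ((x + a : ℕ) : ℤ) = -((x + b : ℕ) : ℤ) := by
    push_cast
    ring
  unfold places GoodF
  rw [mem_filter, mem_filter, mem_Ioc, mem_Ioc]
  constructor
  · rintro ⟨⟨x1, x2⟩, hmod, hpr, ⟨hb1, hb2⟩, hwin⟩
    have hpM : M < x + a := by
      by_contra hcon
      have h1 := hmod (x + a) hpr (by omega)
      apply D.copa (x + a) hpr (by omega)
      exact ((h1.add_right a).dvd_iff dvd_rfl).1 dvd_rfl
    refine ⟨⟨by omega, by omega⟩, hpr, ?_, ⟨?_, ?_, ?_⟩, ?_⟩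
    · by_contra hcon
      push Not at hcon
      apply hwin (x + a) hpr hpM hcon
      obtain ⟨c, hc, hca⟩ := D.ma (x + a) hpr hpM
      have hclt := D.lt (x + a) hpr hpM c hc
      have h2 : x ≡ c [MOD (x + a)] := by
        have h3 : x + a ≡ c + a [MOD (x + a)] :=
          ((Nat.modEq_zero_iff_dvd).2 dvd_rfl).trans ((Nat.modEq_zero_iff_dvd).2 hca).symm
        exact Nat.ModEq.add_right_cancel' a h3
      unfold Nat.ModEq at h2
      rw [h2, Nat.mod_eq_of_lt hclt]
      exact hc
    · rw [hxb]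
      intro h
      omega
    · rw [hxb, Int.natAbs_neg, Int.natAbs_natCast]
      exact hb1
    · intro q hq hqd
      rw [hxb, dvd_neg] at hqd
      exact hb2 q hq (by exact_mod_cast hqd)
    · intro q hq hqX h hh hd
      unfold FF at hh
      split_ifs at hh with hqk
      · have hx : x ≡ m [MOD q] := hmod q hq hqk
        rw [mem_insert, mem_image] at hh
        rcases hh with hh | ⟨c, hc, hh⟩
        · rw [hh, hxb, dvd_neg] at hd
          have h1 : q ∣ x + b := by exact_mod_cast hd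
          apply D.copb q hq hqk
          exact ((hx.add_right b).dvd_iff dvd_rfl).1 h1
        · rw [mem_erase, mem_range] at hc
          apply hc.1
          rw [← hh] at hd
          have h1 : (c : ℕ) ≡ x + a [MOD q] := ((Nat.modEq_iff_dvd).2 (by
            have := (dvd_neg).2 hd
            rwa [neg_sub] at this))
          have h2 := h1.trans (hx.add_right a)
          unfold Nat.ModEq at h2
          rwa [Nat.mod_eq_of_lt hc.2] at h2
      · have key : ∀ c ∈ Z q, ¬ x ≡ c [MOD q] := by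
          intro c hc hcon
          apply hwin q hq (by omega) hqX
          unfold Nat.ModEq at hcon
          rw [hcon, Nat.mod_eq_of_lt (D.lt q hq (by omega) c hc)]
          exact hc
        rw [mem_insert, mem_image] at hh
        rcases hh with hh | ⟨c, hc, hh⟩
        · rw [hh, hxb, dvd_neg] at hd
          have h1 : q ∣ x + b := by exact_mod_cast hd
          obtain ⟨c, hc, hcb⟩ := D.mb q hq (by omega)
          apply key c hc
          exact Nat.ModEq.add_right_cancel' b (((Nat.modEq_zero_iff_dvd).2 h1).trans ((Nat.modEq_zero_iff_dvd).2 hcb).symm)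
        · apply key c hc
          rw [← hh] at hd
          have e : (c : ℤ) + a - ((x + a : ℕ) : ℤ) = (c : ℤ) - (x : ℤ) := by push_cast; ring
          rw [e] at hd
          exact (Nat.modEq_iff_dvd).2 hd
  · rintro ⟨⟨x1, x2⟩, hpr, hpX, ⟨_, hr1, hr2⟩, hF⟩
    rw [hxb, Int.natAbs_neg, Int.natAbs_natCast] at hr1
    have hmod : ∀ p : ℕ, p.Prime → p ≤ M → x ≡ m [MOD p] := by
      intro q hq hqk
      have hqX : (q : ℝ) ≤ (X : ℝ) ^ (1 / (t : ℝ)) := le_trans (by exact_mod_cast hqk) hX
      by_contra hcon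
      obtain ⟨c, hc⟩ : ∃ c, c = (x + a) % q := ⟨_, rfl⟩
      have hcq : c < q := by rw [hc]; exact Nat.mod_lt _ hq.pos
      have hcne : c ≠ (m + a) % q := by
        intro h
        apply hcon
        have h1 : x + a ≡ m + a [MOD q] := by
          unfold Nat.ModEq
          rw [← hc, h]
        exact Nat.ModEq.add_right_cancel' a h1
      have h1 : ((c : ℕ) : ℤ) ∈ FF M m a b Z q := by
        unfold FF
        rw [if_pos hqk]
        apply mem_insert_of_mem
        rw [mem_image]
        exact ⟨c, mem_erase.2 ⟨hcne, mem_range.2 hcq⟩, rfl⟩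
      apply hF q hq hqX _ h1
      have h2 : c ≡ x + a [MOD q] := by
        rw [hc]
        exact Nat.mod_modEq _ _
      have h3 := (Nat.modEq_iff_dvd).1 h2
      have := (dvd_neg).2 h3
      rwa [neg_sub] at this
    refine ⟨⟨by omega, by omega⟩, hmod, hpr, ⟨hr1, ?_⟩, ?_⟩
    · intro q hq hqd
      apply hr2 q hq
      rw [hxb, dvd_neg]
      exact_mod_cast hqd
    · intro q hq hqM hqX hcon
      have h1 : (((x % q : ℕ) : ℤ) + a) ∈ FF M m a b Z q := by
        unfold FF
        rw [if_neg (by omega)]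
        apply mem_insert_of_mem
        rw [mem_image]
        exact ⟨x % q, hcon, rfl⟩
      apply hF q hq hqX _ h1
      have e : ((x % q : ℕ) : ℤ) + a - ((x + a : ℕ) : ℤ) = ((x % q : ℕ) : ℤ) - (x : ℤ) := by push_cast; ring
      rw [e]
      exact (Nat.modEq_iff_dvd).1 (Nat.mod_modEq x q).symm

lemma places_image {t X A B : ℕ} (D : Dat κ M m a b Z) (hX : (M : ℝ) ≤ (X : ℝ) ^ (1 / (t : ℝ))) :
    (places M m a b Z t X A B).image (fun x => x + a) = GoodF t X (A + a) (B + a) (FF M m a b Z) ((a : ℤ) - b) := by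
  classical
  ext p
  rw [mem_image]
  constructor
  · rintro ⟨x, hx, rfl⟩
    exact (places_iff D hX x).1 hx
  · intro hp
    have h1 := hp
    unfold GoodF at h1
    rw [mem_filter, mem_Ioc] at h1
    refine ⟨p - a, ?_, by omega⟩
    rw [places_iff D hX, Nat.sub_add_cancel (by omega)]
    exact hp

lemma places_card {t X A B : ℕ} (D : Dat κ M m a b Z) (hX : (M : ℝ) ≤ (X : ℝ) ^ (1 / (t : ℝ))) :
    (places M m a b Z t X A B).card = (GoodF t X (A + a) (B + a) (FF M m a b Z) ((a : ℤ) - b)).card := by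
  rw [← places_image D hX, card_image_of_injective _ (fun x y h => by simpa using h)]

lemma WW_nonneg (D : Dat κ M m a b Z) (X : ℕ) : 0 ≤ WW M X Z := by
  unfold WW
  apply prod_nonneg
  intro q hq
  rw [mem_filter, mem_Ioc] at hq
  have hq0 : (0 : ℝ) < q := by exact_mod_cast hq.2.pos
  rw [sub_nonneg, div_le_one hq0]
  have := D.card q hq.2 hq.1.1
  have := D.le
  exact_mod_cast (by omega : (Z q).card ≤ q)

/-- the sieve product -/
lemma VF_WW (M : ℕ) : ∃ c : ℝ, 0 < c ∧ ∀ κ m a b Z, Dat κ M m a b Z → ∀ X : ℕ,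
    c * WW M X Z ≤ VF (FF M m a b Z) X := by
  refine ⟨∏ q ∈ (Icc 1 M).filter Nat.Prime, (1 / (q : ℝ)), ?_, ?_⟩
  · apply prod_pos
    intro q hq
    have : (0 : ℝ) < q := by exact_mod_cast (mem_filter.1 hq).2.pos
    positivity
  · intro κ m a b Z D X
    have h2 : (∏ q ∈ (Icc 1 M).filter Nat.Prime, (1 / (q : ℝ))) ≤
        ∏ q ∈ ((Icc 1 X).filter Nat.Prime).filter (fun q => q ≤ M), (1 / (q : ℝ)) := by
      have hs : ((Icc 1 X).filter Nat.Prime).filter (fun q => q ≤ M) ⊆ (Icc 1 M).filter Nat.Prime := by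
        intro q hq
        rw [mem_filter, mem_filter, mem_Icc] at hq
        rw [mem_filter, mem_Icc]
        exact ⟨⟨hq.1.1.1, hq.2⟩, hq.1.2⟩
      rw [← prod_sdiff hs]
      apply mul_le_of_le_one_left
      · exact prod_nonneg fun q _ => by positivity
      · apply prod_le_one
        · intro q _
          positivity
        · intro q hq
          have h3 : (1 : ℝ) ≤ q := by exact_mod_cast (mem_filter.1 (Finset.mem_sdiff.1 hq).1).2.one_le
          rw [div_le_one (by linarith)]
          exact h3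
    have h3 : VF (FF M m a b Z) X =
        (∏ q ∈ ((Icc 1 X).filter Nat.Prime).filter (fun q => q ≤ M), (1 - (rho (FF M m a b Z q) q : ℝ) / q)) *
        ∏ q ∈ ((Icc 1 X).filter Nat.Prime).filter (fun q => ¬ q ≤ M), (1 - (rho (FF M m a b Z q) q : ℝ) / q) := by
      rw [prod_filter_mul_prod_filter_not]
      rfl
    have h4 : WW M X Z ≤ ∏ q ∈ ((Icc 1 X).filter Nat.Prime).filter (fun q => ¬ q ≤ M), (1 - (rho (FF M m a b Z q) q : ℝ) / q) := by
      have e : ((Icc 1 X).filter Nat.Prime).filter (fun q => ¬ q ≤ M) = (Ioc M X).filter Nat.Prime := by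
        ext q
        rw [mem_filter, mem_filter, mem_Icc, mem_filter, mem_Ioc]
        constructor
        · rintro ⟨⟨⟨_, h2⟩, h3⟩, h4⟩
          exact ⟨⟨by omega, h2⟩, h3⟩
        · rintro ⟨⟨h1, h2⟩, h3⟩
          exact ⟨⟨⟨h3.pos, h2⟩, h3⟩, by omega⟩
      rw [e]
      unfold WW
      apply Finset.prod_le_prod
      · intro q hq
        rw [mem_filter, mem_Ioc] at hq
        have hq0 : (0 : ℝ) < q := by exact_mod_cast hq.2.pos
        rw [sub_nonneg, div_le_one hq0]
        have := D.card q hq.2 hq.1.1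
        have := D.le
        exact_mod_cast (by omega : (Z q).card ≤ q)
      · intro q hq
        rw [mem_filter, mem_Ioc] at hq
        have hq0 : (0 : ℝ) < q := by exact_mod_cast hq.2.pos
        have h7 : rho (FF M m a b Z q) q ≤ (Z q).card := rho_large D q hq.2 (by omega)
        have h8 : (rho (FF M m a b Z q) q : ℝ) / q ≤ ((Z q).card : ℝ) / q :=
          div_le_div_of_nonneg_right (by exact_mod_cast h7) hq0.le
        linarith
    have h5 : ∏ q ∈ ((Icc 1 X).filter Nat.Prime).filter (fun q => q ≤ M), (1 / (q : ℝ)) ≤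
        ∏ q ∈ ((Icc 1 X).filter Nat.Prime).filter (fun q => q ≤ M), (1 - (rho (FF M m a b Z q) q : ℝ) / q) := by
      apply Finset.prod_le_prod
      · intro q _
        positivity
      · intro q hq
        rw [mem_filter, mem_filter] at hq
        have hq0 : (0 : ℝ) < q := by exact_mod_cast hq.1.2.pos
        have h6 := rho_small D q hq.1.2 hq.2
        have h7 : (rho (FF M m a b Z q) q : ℝ) + 1 ≤ q := by
          have : rho (FF M m a b Z q) q + 1 ≤ q := by
            have := hq.1.2.pos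
            omega
          exact_mod_cast this
        rw [le_sub_iff_add_le, ← add_div, div_le_one hq0]
        linarith
    rw [h3]
    apply mul_le_mul (h2.trans h5) h4 (WW_nonneg D X)
    exact (prod_nonneg fun q _ => by positivity).trans h5

/-- **Chen's theorem with prescribed residues modulo the small primes and forbidden classes modulo the others.** -/
theorem chenM (M : ℕ) : ∃ t : ℕ, 1 ≤ t ∧ ∃ c : ℝ, 0 < c ∧
    (∀ θ : ℝ, 0 < θ → ∃ X₀ : ℕ, ∀ X : ℕ, X₀ ≤ X → (M : ℝ) ≤ (X : ℝ) ^ (1 / (t : ℝ)) ∧ ∀ κ m a b : ℕ, ∀ Z : ℕ → Finset ℕ, Dat κ M m a b Z →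
      ∀ A B : ℕ, B + M ≤ X → θ * X ≤ (B : ℝ) - A →
      c * (((B : ℝ) - A) * WW M X Z) ≤ ((places M m a b Z t X A B).card : ℝ)) ∧
    (∀ (L : ℕ) (θ η : ℝ), 0 < θ → 0 < η → ∃ D X₀ : ℕ, ∀ X : ℕ, X₀ ≤ X → ∀ κ m a b : ℕ, ∀ Z : ℕ → Finset ℕ, Dat κ M m a b Z →
      ∀ A B : ℕ, B + M ≤ X → θ * X ≤ (B : ℝ) - A → ∀ S ⊆ places M m a b Z t X A B,
      η * ((places M m a b Z t X A B).card : ℝ) ≤ S.card →
      ∃ x d : ℕ, 1 ≤ d ∧ (d : ℝ) ≤ Real.log X ^ D ∧ ∀ j < L, x + j * d ∈ S) := by
  classical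
  obtain ⟨t, ht, c, hc, G1, G2⟩ := genF (M + 1)
  obtain ⟨cV, hcV, hV⟩ := VF_WW M
  have ht0 : (0 : ℝ) < t := by exact_mod_cast ht
  have ev : ∀ᶠ X : ℕ in atTop, (M : ℝ) ≤ (X : ℝ) ^ (1 / (t : ℝ)) :=
    ((tendsto_rpow_atTop (by positivity)).comp tendsto_natCast_atTop_atTop).eventually_ge_atTop _
  obtain ⟨X₁, hX₁⟩ := eventually_atTop.1 ev
  refine ⟨t, ht, c * cV, by positivity, ?_, ?_⟩
  · intro θ hθ
    obtain ⟨X₀, H⟩ := G1 θ hθ
    refine ⟨max X₀ X₁, ?_⟩
    intro X hX
    have g1 : X₀ ≤ X := (le_max_left _ _).trans hX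
    have g2 := hX₁ X ((le_max_right _ _).trans hX)
    refine ⟨g2, ?_⟩
    intro κ m a b Z D A B hBX hAB
    have haM := D.aM
    have h1 := H X g1 (FF M m a b Z) ((a : ℤ) - b) (FF_sys D (by omega)) (A + a) (B + a) (by omega) (by
      push_cast
      linarith)
    rw [places_card D g2]
    refine le_trans ?_ h1
    have e : (((B + a : ℕ) : ℝ)) - ((A + a : ℕ) : ℝ) = (B : ℝ) - A := by push_cast; ring
    rw [e]
    have h2 := hV κ m a b Z D X
    have h3 : 0 ≤ (B : ℝ) - A := le_trans (by positivity) hAB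
    calc c * cV * (((B : ℝ) - A) * WW M X Z) = c * ((B : ℝ) - A) * (cV * WW M X Z) := by ring
      _ ≤ _ := mul_le_mul_of_nonneg_left h2 (by positivity)
  · intro L θ η hθ hη
    obtain ⟨D', X₀, H⟩ := G2 L θ η hθ hη
    refine ⟨D', max X₀ X₁, ?_⟩
    intro X hX κ m a b Z D A B hBX hAB S hS hSc
    have g1 : X₀ ≤ X := (le_max_left _ _).trans hX
    have g2 := hX₁ X ((le_max_right _ _).trans hX)
    have haM := D.aM
    have hinj : Function.Injective (fun x : ℕ => x + a) := fun x y h => by simpa using h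
    obtain ⟨x, d, hd1, hd2, hd3⟩ := H X g1 (FF M m a b Z) ((a : ℤ) - b) (FF_sys D (by omega)) (A + a) (B + a) (by omega) (by
      push_cast
      linarith) (S.image (fun x => x + a)) (by
        rw [← places_image D g2]
        exact image_subset_image hS) (by
        rw [card_image_of_injective _ hinj, ← places_card D g2]
        exact hSc)
    rcases Nat.eq_zero_or_pos L with hL | hL
    · exact ⟨0, d, hd1, hd2, fun j hj => by omega⟩
    have hx : a ≤ x := by
      have h1 := hd3 0 hL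
      rw [mem_image] at h1
      obtain ⟨y, _, hy⟩ := h1
      omega
    refine ⟨x - a, d, hd1, hd2, fun j hj => ?_⟩
    have h1 := hd3 j hj
    rw [mem_image] at h1
    obtain ⟨y, hy1, hy2⟩ := h1
    have : x - a + j * d = y := by omega
    rw [this]
    exact hy1

/-- `κ` classes: the sieve product is at least `c / log ^ κ X` -/
lemma WW_low (κ : ℕ) (hκ : 1 ≤ κ) : ∃ c : ℝ, 0 < c ∧ ∀ M m a b Z, Dat κ M m a b Z → ∀ X : ℕ, 2 ≤ X →
    c / Real.log X ^ κ ≤ WW M X Z := by
  obtain ⟨c, hc, hV⟩ := VZ_low κ hκ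
  refine ⟨c, hc, ?_⟩
  intro M m a b Z D X hX
  obtain ⟨Z', hZ'⟩ : ∃ Z' : ℕ → Finset ℕ, Z' = fun q => if q ≤ M then ∅ else range κ := ⟨_, rfl⟩
  have hle := D.le
  have hsys : SysZ κ Z' := by
    constructor
    · intro p _
      rw [hZ']
      simp only
      split_ifs
      · simp
      · rw [card_range]
    · intro p hp
      rw [hZ']
      simp only
      split_ifs with h
      · rw [card_empty]
        exact hp.pos
      · rw [card_range]
        omega
    · intro p hp c hc
      rw [hZ'] at hc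
      simp only at hc
      split_ifs at hc with h
      · exact absurd hc (notMem_empty _)
      · rw [mem_range] at hc
        omega
  have h1 := hV X hX Z' hsys
  refine h1.trans ?_
  have h5 : VV Z' 0 X = (∏ q ∈ ((Icc 1 X).filter Nat.Prime).filter (fun q => q ≤ M), (1 - ((Z' q).card : ℝ) / q)) *
      ∏ q ∈ ((Icc 1 X).filter Nat.Prime).filter (fun q => ¬ q ≤ M), (1 - ((Z' q).card : ℝ) / q) := by
    rw [prod_filter_mul_prod_filter_not]
    unfold VV
    apply prod_congr
    · ext q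
      rw [Pr_mem, mem_filter, mem_Icc]
      constructor
      · rintro ⟨⟨a, b⟩, c⟩
        exact ⟨⟨c.pos, b⟩, c⟩
      · rintro ⟨⟨a, b⟩, c⟩
        exact ⟨⟨c.pos, b⟩, c⟩
    · intro q _
      rfl
  have h6 : (∏ q ∈ ((Icc 1 X).filter Nat.Prime).filter (fun q => q ≤ M), (1 - ((Z' q).card : ℝ) / q)) = 1 := by
    apply prod_eq_one
    intro q hq
    rw [hZ']
    simp only
    rw [if_pos (mem_filter.1 hq).2, card_empty]
    simp
  rw [h5, h6, one_mul]
  have e : ((Icc 1 X).filter Nat.Prime).filter (fun q => ¬ q ≤ M) = (Ioc M X).filter Nat.Prime := by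
    ext q
    rw [mem_filter, mem_filter, mem_Icc, mem_filter, mem_Ioc]
    constructor
    · rintro ⟨⟨⟨_, h2⟩, h3⟩, h4⟩
      exact ⟨⟨by omega, h2⟩, h3⟩
    · rintro ⟨⟨h1, h2⟩, h3⟩
      exact ⟨⟨⟨h3.pos, h2⟩, h3⟩, by omega⟩
  rw [e]
  unfold WW
  apply Finset.prod_le_prod
  · intro q hq
    rw [mem_filter, mem_Ioc] at hq
    have hq0 : (0 : ℝ) < q := by exact_mod_cast hq.2.pos
    rw [sub_nonneg, div_le_one hq0]
    exact_mod_cast (hsys.loc q hq.2).le
  · intro q hq
    rw [mem_filter, mem_Ioc] at hq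
    have hq0 : (0 : ℝ) < q := by exact_mod_cast hq.2.pos
    have h7 : (Z q).card ≤ (Z' q).card := by
      rw [hZ']
      simp only
      rw [if_neg (by omega), card_range]
      exact D.card q hq.2 hq.1.1
    have h8 : ((Z q).card : ℝ) / q ≤ ((Z' q).card : ℝ) / q :=
      div_le_div_of_nonneg_right (by exact_mod_cast h7) hq0.le
    linarith

/-- the classes of `-h`, `h ∈ H` -/
def shiftZ (H : Finset ℕ) (q : ℕ) : Finset ℕ := (range q).filter (fun c => ∃ h ∈ H, q ∣ c + h)

lemma shiftZ_card (H : Finset ℕ) (q : ℕ) (hq : 0 < q) : (shiftZ H q).card ≤ H.card := by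
  classical
  have h1 : shiftZ H q ⊆ H.image (fun h => (q - h % q) % q) := by
    intro c hc
    unfold shiftZ at hc
    rw [mem_filter, mem_range] at hc
    obtain ⟨hcq, h, hh, hd⟩ := hc
    rw [mem_image]
    refine ⟨h, hh, ?_⟩
    have h2 := Nat.mod_lt h hq
    have h3 : c + (h % q) ≡ 0 [MOD q] := by
      have : c + h % q ≡ c + h [MOD q] := Nat.ModEq.add_left c (Nat.mod_modEq h q)
      exact this.trans ((Nat.modEq_zero_iff_dvd).2 hd)
    have h4 : q ∣ c + h % q := (Nat.modEq_zero_iff_dvd).1 h3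
    obtain ⟨s, hs⟩ := h4
    rcases Nat.eq_zero_or_pos (h % q) with h5 | h5
    · rw [h5, Nat.sub_zero, Nat.mod_self]
      rw [h5] at hs
      have : s = 0 := by
        by_contra hne
        have : q * 1 ≤ q * s := Nat.mul_le_mul_left q (Nat.one_le_iff_ne_zero.2 hne)
        omega
      rw [this] at hs
      omega
    · have : s = 1 := by
        have hs1 : s ≠ 0 := by
          intro h6
          rw [h6] at hs
          omega
        have hs2 : s < 2 := by
          by_contra hcon
          have : q * 2 ≤ q * s := Nat.mul_le_mul_left q (by omega)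
          omega
        omega
      rw [this] at hs
      rw [Nat.mod_eq_of_lt (by omega)]
      omega
  exact (card_le_card h1).trans card_image_le

lemma shift_mem (H : Finset ℕ) (q : ℕ) (hq : 0 < q) (h : ℕ) (hh : h ∈ H) : ∃ c ∈ shiftZ H q, q ∣ c + h := by
  refine ⟨(q - h % q) % q, ?_, ?_⟩
  · unfold shiftZ
    rw [mem_filter, mem_range]
    refine ⟨Nat.mod_lt _ hq, h, hh, ?_⟩
    have h1 : (q - h % q) % q + h ≡ (q - h % q) + h % q [MOD q] :=
      Nat.ModEq.add (Nat.mod_modEq _ _) (Nat.mod_modEq h q).symm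
    rw [Nat.sub_add_cancel (Nat.mod_lt h hq).le] at h1
    exact (Nat.modEq_zero_iff_dvd).1 (h1.trans ((Nat.modEq_zero_iff_dvd).2 dvd_rfl))
  · have h1 : (q - h % q) % q + h ≡ (q - h % q) + h % q [MOD q] :=
      Nat.ModEq.add (Nat.mod_modEq _ _) (Nat.mod_modEq h q).symm
    rw [Nat.sub_add_cancel (Nat.mod_lt h hq).le] at h1
    exact (Nat.modEq_zero_iff_dvd).1 (h1.trans ((Nat.modEq_zero_iff_dvd).2 dvd_rfl))

lemma shift_not (H : Finset ℕ) (q x : ℕ) (hq : 0 < q) : x % q ∉ shiftZ H q ↔ ∀ h ∈ H, ¬ q ∣ x + h := by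
  unfold shiftZ
  rw [mem_filter, mem_range]
  constructor
  · intro hx h hh hd
    apply hx
    refine ⟨Nat.mod_lt _ hq, h, hh, ?_⟩
    have h1 : x % q + h ≡ x + h [MOD q] := (Nat.mod_modEq x q).add_right h
    exact (h1.dvd_iff dvd_rfl).2 hd
  · rintro hx ⟨_, h, hh, hd⟩
    apply hx h hh
    have h1 : x % q + h ≡ x + h [MOD q] := (Nat.mod_modEq x q).add_right h
    exact (h1.dvd_iff dvd_rfl).1 hd

/-- the data of a pattern `H` of offsets -/
lemma shift_dat {H : Finset ℕ} {M m a b : ℕ} (ha : a ∈ H) (hb : b ∈ H) (hab : a ≠ b) (hH : ∀ h ∈ H, h ≤ M)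
    (hle : H.card ≤ M) (hcop : ∀ h ∈ H, ∀ p : ℕ, p.Prime → p ≤ M → ¬ p ∣ m + h) : Dat H.card M m a b (shiftZ H) where
  le := hle
  card := fun q hq _ => shiftZ_card H q hq.pos
  lt := by
    intro q hq _ c hc
    unfold shiftZ at hc
    exact mem_range.1 (mem_filter.1 hc).1
  ne := hab
  aM := hH a ha
  bM := hH b hb
  copa := hcop a ha
  copb := hcop b hb
  ma := fun q hq _ => shift_mem H q hq.pos a ha
  mb := fun q hq _ => shift_mem H q hq.pos b hb

end Pool.Agent.Q117.CW
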