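import Pool.Agent.Q117.CW.Force

/-!
# Chen's theorem with a congruence condition modulo the small primes

As `Force.chenM`, the residue class modulo the primes `≤ M` replaced by a condition `R` that depends only on the residues modulo the
primes `≤ M`; every dense subset contains narrow progressions.
-/

set_option autoImplicit false

namespace Pool.Agent.Q117.CW

open Finset Filter

/-- the data: `R` depends only on the residues modulo the primes `≤ M` and is satisfiable -/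
structure Rat (κ M a b : ℕ) (Z : ℕ → Finset ℕ) (R : ℕ → Prop) : Prop where
  le : κ ≤ M
  card : ∀ q : ℕ, q.Prime → M < q → (Z q).card ≤ κ
  lt : ∀ q : ℕ, q.Prime → M < q → ∀ c ∈ Z q, c < q
  ne : a ≠ b
  aM : a ≤ M
  bM : b ≤ M
  ma : ∀ q : ℕ, q.Prime → M < q → ∃ c ∈ Z q, q ∣ c + a
  mb : ∀ q : ℕ, q.Prime → M < q → ∃ c ∈ Z q, q ∣ c + b
  inv : ∀ x y : ℕ, (∀ p : ℕ, p.Prime → p ≤ M → x ≡ y [MOD p]) → R x → R y
  cop : ∀ x : ℕ, R x → ∀ p : ℕ, p.Prime → p ≤ M → ¬ p ∣ x + a ∧ ¬ p ∣ x + b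
  ex : ∃ m, R m

open Classical in
/-- the `x` -/
noncomputable def patt (M a b : ℕ) (Z : ℕ → Finset ℕ) (R : ℕ → Prop) (t X A B : ℕ) : Finset ℕ :=
  (Ioc A B).filter (fun x => R x ∧ (x + a).Prime ∧
    ((x + b).primeFactorsList.length ≤ 2 ∧ ∀ q : ℕ, q.Prime → q ∣ x + b → (X : ℝ) ^ (1 / 9 : ℝ) < q) ∧
    ∀ q : ℕ, q.Prime → M < q → (q : ℝ) ≤ (X : ℝ) ^ (1 / (t : ℝ)) → x % q ∉ Z q)

variable {κ M a b : ℕ} {Z : ℕ → Finset ℕ} {R : ℕ → Prop}

lemma Rat.dat (D : Rat κ M a b Z R) {m : ℕ} (hm : R m) : Dat κ M m a b Z where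
  le := D.le
  card := D.card
  lt := D.lt
  ne := D.ne
  aM := D.aM
  bM := D.bM
  copa := fun p hp hpM => (D.cop m hm p hp hpM).1
  copb := fun p hp hpM => (D.cop m hm p hp hpM).2
  ma := D.ma
  mb := D.mb

lemma places_sub (D : Rat κ M a b Z R) {m : ℕ} (hm : R m) (t X A B : ℕ) :
    places M m a b Z t X A B ⊆ patt M a b Z R t X A B := by
  classical
  intro x hx
  unfold places at hx
  unfold patt
  rw [mem_filter] at hx ⊢
  exact ⟨hx.1, D.inv m x (fun p hp hpM => (hx.2.1 p hp hpM).symm) hm, hx.2.2⟩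

lemma WW_pos (D : Rat κ M a b Z R) (X : ℕ) : 0 < WW M X Z := by
  unfold WW
  apply prod_pos
  intro q hq
  rw [mem_filter, mem_Ioc] at hq
  have hq0 : (0 : ℝ) < q := by exact_mod_cast hq.2.pos
  rw [sub_pos, div_lt_one hq0]
  have := D.card q hq.2 hq.1.1
  have := D.le
  exact_mod_cast (by omega : (Z q).card < q)

/-- **Chen's theorem with a congruence condition modulo the small primes.** -/
theorem chenR (M : ℕ) : ∃ t : ℕ, 1 ≤ t ∧ ∃ c : ℝ, 0 < c ∧
    (∀ θ : ℝ, 0 < θ → ∃ X₀ : ℕ, ∀ X : ℕ, X₀ ≤ X → (M : ℝ) ≤ (X : ℝ) ^ (1 / (t : ℝ)) ∧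
      ∀ κ a b : ℕ, ∀ Z : ℕ → Finset ℕ, ∀ R : ℕ → Prop, Rat κ M a b Z R →
      ∀ A B : ℕ, B + M ≤ X → θ * X ≤ (B : ℝ) - A →
      c * (((B : ℝ) - A) * WW M X Z) ≤ ((patt M a b Z R t X A B).card : ℝ)) ∧
    (∀ (L : ℕ) (θ η : ℝ), 0 < θ → 0 < η → ∃ D X₀ : ℕ, ∀ X : ℕ, X₀ ≤ X →
      ∀ κ a b : ℕ, ∀ Z : ℕ → Finset ℕ, ∀ R : ℕ → Prop, Rat κ M a b Z R →
      ∀ A B : ℕ, B + M ≤ X → θ * X ≤ (B : ℝ) - A → ∀ S ⊆ patt M a b Z R t X A B,
      η * ((patt M a b Z R t X A B).card : ℝ) ≤ S.card →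
      ∃ x d : ℕ, 1 ≤ d ∧ (d : ℝ) ≤ Real.log X ^ D ∧ ∀ j < L, x + j * d ∈ S) := by
  classical
  obtain ⟨t, ht, c, hc, G1, G2⟩ := chenM M
  refine ⟨t, ht, c, hc, ?_, ?_⟩
  · intro θ hθ
    obtain ⟨X₀, H⟩ := G1 θ hθ
    refine ⟨X₀, ?_⟩
    intro X hX
    obtain ⟨h1, h2⟩ := H X hX
    refine ⟨h1, ?_⟩
    intro κ a b Z R D A B hBX hAB
    obtain ⟨m, hm⟩ := D.ex
    refine (h2 κ m a b Z (D.dat hm) A B hBX hAB).trans ?_
    exact_mod_cast card_le_card (places_sub D hm t X A B)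
  · intro L θ η hθ hη
    obtain ⟨P, hP⟩ : ∃ P : ℕ, P = ∏ p ∈ (Icc 1 M).filter Nat.Prime, p := ⟨_, rfl⟩
    have hP0 : 0 < P := by
      rw [hP]
      exact prod_pos fun p hp => (mem_filter.1 hp).2.pos
    have hP0' : (0 : ℝ) < P := by exact_mod_cast hP0
    obtain ⟨X₁, H1⟩ := G1 θ hθ
    obtain ⟨D', X₂, H2⟩ := G2 L θ (η / P) hθ (by positivity)
    refine ⟨D', max (max X₁ X₂) 2, ?_⟩
    intro X hX κ a b Z R D A B hBX hAB S hS hSc
    have g1 : X₁ ≤ X := ((le_max_left _ _).trans (le_max_left _ _)).trans hX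
    have g2 : X₂ ≤ X := ((le_max_right _ _).trans (le_max_left _ _)).trans hX
    have g3 : 2 ≤ X := (le_max_right _ _).trans hX
    obtain ⟨_, h1⟩ := H1 X g1
    have hX0 : (0 : ℝ) < X := by exact_mod_cast (by omega : 0 < X)
    have hpos : 0 < ((patt M a b Z R t X A B).card : ℝ) := by
      obtain ⟨m, hm⟩ := D.ex
      have h2 := h1 κ m a b Z (D.dat hm) A B hBX hAB
      have h3 : 0 < (B : ℝ) - A := lt_of_lt_of_le (by positivity) hAB
      have h4 := WW_pos D X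
      have h5 : ((places M m a b Z t X A B).card : ℝ) ≤ ((patt M a b Z R t X A B).card : ℝ) := by
        exact_mod_cast card_le_card (places_sub D hm t X A B)
      exact lt_of_lt_of_le (by positivity) (h2.trans h5)
    have hSpos : (0 : ℝ) < S.card := lt_of_lt_of_le (by positivity) hSc
    -- pigeonhole over the residues modulo `P`
    obtain ⟨r, hr, hr2⟩ : ∃ r ∈ range P, (S.card : ℝ) ≤ P * ((S.filter (fun x => x % P = r)).card : ℝ) := by
      by_contra hcon
      push Not at hcon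
      have h2 : (S.card : ℝ) = ∑ r ∈ range P, ((S.filter (fun x => x % P = r)).card : ℝ) := by
        rw [← Nat.cast_sum]
        congr 1
        exact card_eq_sum_card_fiberwise (fun x _ => mem_coe.2 (mem_range.2 (Nat.mod_lt x hP0)))
      have h3 : ∑ r ∈ range P, ((P : ℝ) * ((S.filter (fun x => x % P = r)).card : ℝ)) < ∑ r ∈ range P, (S.card : ℝ) :=
        sum_lt_sum_of_nonempty ⟨0, mem_range.2 hP0⟩ (fun r hr => hcon r hr)
      rw [← mul_sum, ← h2, sum_const, card_range, nsmul_eq_mul] at h3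
      exact lt_irrefl _ h3
    have hne : (S.filter (fun x => x % P = r)).Nonempty := by
      rw [nonempty_iff_ne_empty]
      intro h
      rw [h, card_empty, Nat.cast_zero, mul_zero] at hr2
      linarith
    obtain ⟨m, hm⟩ := hne
    rw [mem_filter] at hm
    have hmR : R m := by
      have := hS hm.1
      unfold patt at this
      rw [mem_filter] at this
      exact this.2.1
    have hsub : S.filter (fun x => x % P = r) ⊆ places M m a b Z t X A B := by
      intro x hx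
      rw [mem_filter] at hx
      have h2 := hS hx.1
      unfold patt at h2
      unfold places
      rw [mem_filter] at h2 ⊢
      refine ⟨h2.1, ?_, h2.2.2⟩
      intro p hp hpM
      have h3 : p ∣ P := by
        rw [hP]
        exact dvd_prod_of_mem _ (mem_filter.2 ⟨mem_Icc.2 ⟨hp.pos, hpM⟩, hp⟩)
      have h4 : x ≡ m [MOD P] := by
        unfold Nat.ModEq
        rw [hx.2, hm.2]
      exact h4.of_dvd h3
    have hdens : η / P * ((places M m a b Z t X A B).card : ℝ) ≤ ((S.filter (fun x => x % P = r)).card : ℝ) := by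
      have h5 : ((places M m a b Z t X A B).card : ℝ) ≤ ((patt M a b Z R t X A B).card : ℝ) := by
        exact_mod_cast card_le_card (places_sub D hmR t X A B)
      rw [div_mul_eq_mul_div, div_le_iff₀ hP0']
      calc η * ((places M m a b Z t X A B).card : ℝ) ≤ η * ((patt M a b Z R t X A B).card : ℝ) :=
            mul_le_mul_of_nonneg_left h5 hη.le
        _ ≤ S.card := hSc
        _ ≤ P * ((S.filter (fun x => x % P = r)).card : ℝ) := hr2
        _ = _ := mul_comm _ _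
    obtain ⟨x, d, hd1, hd2, hd3⟩ := H2 X g2 κ m a b Z (D.dat hmR) A B hBX hAB _ hsub hdens
    exact ⟨x, d, hd1, hd2, fun j hj => (mem_filter.1 (hd3 j hj)).1⟩

/-- existence of residues modulo the primes `≤ M` -/
lemma crt (M : ℕ) (r : ℕ → ℕ) : ∃ m : ℕ, ∀ p : ℕ, p.Prime → p ≤ M → m ≡ r p [MOD p] := by
  obtain ⟨k, hk⟩ := Nat.chineseRemainderOfFinset r (fun p => p) ((Icc 1 M).filter Nat.Prime)
    (fun p hp => (mem_filter.1 hp).2.ne_zero) (by
      intro p hp q hq hpq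
      have h1 := (mem_filter.1 (mem_coe.1 hp)).2
      have h2 := (mem_filter.1 (mem_coe.1 hq)).2
      exact (Nat.coprime_primes h1 h2).2 hpq)
  exact ⟨k, fun p hp hpM => hk p (mem_filter.2 ⟨mem_Icc.2 ⟨hp.pos, hpM⟩, hp⟩)⟩

/-- a residue avoiding fewer than `q` classes -/
lemma avoid (H : Finset ℕ) (q : ℕ) (hq : H.card < q) : ∃ r : ℕ, ∀ h ∈ H, ¬ q ∣ r + h := by
  have hq0 : 0 < q := by omega
  have h1 : (shiftZ H q).card < (range q).card := by
    rw [card_range]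
    exact lt_of_le_of_lt (shiftZ_card H q hq0) hq
  obtain ⟨r, hr, hr2⟩ := exists_mem_notMem_of_card_lt_card h1
  rw [mem_range] at hr
  refine ⟨r, ?_⟩
  rw [← shift_not H q r hq0, Nat.mod_eq_of_lt hr]
  exact hr2

end Pool.Agent.Q117.CW
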